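import Pool.Agent.R565.PU.Quad
import Pool.Agent.Y718.FQ.Vals

/-!
# Rational functions with values in flat sets on sets dominated by products of blocks
-/

set_option autoImplicit false

namespace Pool.Agent.R565.PU

open MvPolynomial Pool.Agent.Y718.FQ

variable {K : Type} [Field K] {O : Set K} {σ τ : Type}

lemma clear_eval (g : MvPolynomial τ K) (P : σ → MvPolynomial τ K) (h : MvPolynomial σ K) :
    ∃ (N : ℕ) (H : MvPolynomial τ K), ∀ t : τ → K, eval t g ≠ 0 →
      eval t H = (eval t g) ^ N * eval (fun k => eval t (P k) / eval t g) h := by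
  obtain ⟨N, H, hH⟩ := exists_clear g P h
  refine ⟨N, H, fun t ht => ?_⟩
  have := hH K t
  rw [← coe_aeval_eq_eval] at ht
  have := this ht
  simpa [coe_aeval_eq_eval] using this

theorem cp_of_dom {X : Set (τ → K)} (hX : CP O X) {Y : Set (σ → K)}
    (g : MvPolynomial τ K) (P : σ → MvPolynomial τ K) (hg : ∃ t ∈ X, eval t g ≠ 0)
    (h1 : ∀ t ∈ X, eval t g ≠ 0 → (fun k => eval t (P k) / eval t g) ∈ Y)
    (h2 : ∀ h : MvPolynomial σ K,
      (∀ t ∈ X, eval t g ≠ 0 → eval (fun k => eval t (P k) / eval t g) h = 0) →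
      ∀ z ∈ Y, eval z h = 0) : CP O Y := by
  have hcl := clear_eval g P
  obtain ⟨t0, ht0X, ht0⟩ := hg
  -- a polynomial which vanishes at the points of `X` with `g ≠ 0` vanishes on `X`
  have hgz : ∀ F : MvPolynomial τ K, (∀ t ∈ X, eval t g ≠ 0 → eval t F = 0) →
      ∀ t ∈ X, eval t F = 0 := by
    intro F hF
    rcases hX.irr g F (fun t ht => by
      by_cases h : eval t g = 0
      · exact Or.inl h
      · exact Or.inr (hF t ht h)) with h | h
    · exact absurd (h t0 ht0X) ht0
    · exact h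
  refine ⟨⟨_, h1 t0 ht0X ht0⟩, fun p q hpq => ?_, fun p q hpq hq => ?_⟩
  · obtain ⟨N, G, hG⟩ := hcl p
    obtain ⟨M, H, hH⟩ := hcl q
    have h3 := hgz (G * H) (fun t htX ht => by
      rw [map_mul]
      rcases hpq _ (h1 t htX ht) with h | h
      · rw [hG t ht, h, mul_zero, zero_mul]
      · rw [hH t ht, h, mul_zero, mul_zero])
    rcases hX.irr G H (fun t ht => by
      have := h3 t ht
      rw [map_mul] at this
      exact mul_eq_zero.1 this) with h | h
    · refine Or.inl (h2 p fun t htX ht => ?_)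
      have h4 := hG t ht
      rw [h t htX] at h4
      exact (mul_eq_zero.1 h4.symm).resolve_left (pow_ne_zero _ ht)
    · refine Or.inr (h2 q fun t htX ht => ?_)
      have h4 := hH t ht
      rw [h t htX] at h4
      exact (mul_eq_zero.1 h4.symm).resolve_left (pow_ne_zero _ ht)
  · obtain ⟨N, G, hG⟩ := hcl p
    obtain ⟨M, H, hH⟩ := hcl q
    obtain ⟨t1, ht1X, ht1, ht1q⟩ : ∃ t ∈ X, eval t g ≠ 0 ∧
        eval (fun k => eval t (P k) / eval t g) q ≠ 0 := by
      by_contra hcon
      push Not at hcon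
      obtain ⟨x, hx, hqx⟩ := hq
      exact hqx (h2 q hcon x hx)
    obtain ⟨c, hc⟩ := hX.const (G * g ^ M * g) (H * g ^ N * g) (fun t htX hv => by
        rw [map_mul, map_mul, map_pow] at hv
        have ht : eval t g ≠ 0 := right_ne_zero_of_mul hv
        rw [map_mul, map_mul, map_pow, map_mul, map_mul, map_pow]
        rw [hH t ht] at hv
        rw [hG t ht, hH t ht]
        have hq' : eval (fun k => eval t (P k) / eval t g) q ≠ 0 := by
          intro h0
          rw [h0, mul_zero, zero_mul, zero_mul] at hv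
          exact hv rfl
        have h5 := hpq _ (h1 t htX ht) hq'
        have h6 : eval t g ^ N * eval (fun k => eval t (P k) / eval t g) p * eval t g ^ M *
            eval t g /
            (eval t g ^ M * eval (fun k => eval t (P k) / eval t g) q * eval t g ^ N *
              eval t g) =
            eval (fun k => eval t (P k) / eval t g) p /
              eval (fun k => eval t (P k) / eval t g) q := by
          have e1 : eval t g ^ N ≠ 0 := pow_ne_zero _ ht
          have e2 : eval t g ^ M ≠ 0 := pow_ne_zero _ ht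
          rw [div_eq_div_iff (mul_ne_zero (mul_ne_zero (mul_ne_zero e2 hq') e1) ht) hq']
          ring
        rw [h6]
        exact h5) ⟨t1, ht1X, by
          rw [map_mul, map_mul, map_pow, hH t1 ht1]
          exact mul_ne_zero (mul_ne_zero (mul_ne_zero (pow_ne_zero _ ht1) ht1q)
            (pow_ne_zero _ ht1)) ht1⟩
    refine ⟨c, fun x hx => ?_⟩
    have h4 := h2 (p - C c * q) (fun t htX ht => ?_) x hx
    · rw [map_sub, map_mul, eval_C] at h4
      exact sub_eq_zero.1 h4
    · rw [map_sub, map_mul, eval_C]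
      have h5 := hc t htX
      rw [map_mul, map_mul, map_mul, map_mul, map_pow, map_pow, hG t ht, hH t ht] at h5
      have e1 : eval t g ^ N ≠ 0 := pow_ne_zero _ ht
      have e2 : eval t g ^ M ≠ 0 := pow_ne_zero _ ht
      have h6 : (eval t g ^ N * eval t g ^ M * eval t g) *
          (eval (fun k => eval t (P k) / eval t g) p -
            c * eval (fun k => eval t (P k) / eval t g) q) = 0 := by
        linear_combination h5
      exact (mul_eq_zero.1 h6).resolve_left (mul_ne_zero (mul_ne_zero e1 e2) ht)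

theorem fcp_of_dom {X : Set (τ → K)} (hX : FCP O X) {Y : Set (σ → K)}
    (g : MvPolynomial τ K) (P : σ → MvPolynomial τ K)
    (h1 : ∀ t ∈ X, eval t g ≠ 0 → (fun k => eval t (P k) / eval t g) ∈ Y)
    (h2 : ∀ h : MvPolynomial σ K,
      (∀ t ∈ X, eval t g ≠ 0 → eval (fun k => eval t (P k) / eval t g) h = 0) →
      ∀ z ∈ Y, eval z h = 0) : FCP O Y := by
  classical
  obtain ⟨𝒴, hfin, hCP, rfl⟩ := hX
  let cl : Set (τ → K) → Set (σ → K) := fun Z => {z | z ∈ Y ∧ ∀ h : MvPolynomial σ K,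
    (∀ t ∈ Z, eval t g ≠ 0 → eval (fun k => eval t (P k) / eval t g) h = 0) → eval z h = 0}
  refine ⟨cl '' {Z | Z ∈ 𝒴 ∧ ∃ t ∈ Z, eval t g ≠ 0}, (hfin.subset fun Z hZ => hZ.1).image _,
    ?_, ?_⟩
  · rintro _ ⟨Z, ⟨hZ, hZg⟩, rfl⟩
    refine cp_of_dom (hCP Z hZ) g P hZg (fun t ht htg => ⟨h1 t ⟨Z, hZ, ht⟩ htg, fun h hh =>
      hh t ht htg⟩) fun h hh z hz => hz.2 h hh
  · ext z
    constructor
    · intro hz
      by_contra hcon
      have h3 : ∀ Z ∈ 𝒴, ∃ h : MvPolynomial σ K,
          (∀ t ∈ Z, eval t g ≠ 0 → eval (fun k => eval t (P k) / eval t g) h = 0) ∧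
            eval z h ≠ 0 := by
        intro Z hZ
        by_contra hno
        push Not at hno
        apply hcon
        refine ⟨cl Z, ⟨Z, ⟨hZ, ?_⟩, rfl⟩, hz, hno⟩
        by_contra hg
        push Not at hg
        have := hno 1 (fun t ht htg => absurd (hg t ht) htg)
        rw [map_one] at this
        exact one_ne_zero this
      choose! f hf1 hf2 using h3
      have h4 := h2 (∏ Z ∈ hfin.toFinset, f Z) (fun t ht htg => by
        obtain ⟨Z, hZ, htZ⟩ := ht
        rw [map_prod]
        exact Finset.prod_eq_zero (hfin.mem_toFinset.2 hZ) (hf1 Z hZ t htZ htg)) z hz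
      rw [map_prod, Finset.prod_eq_zero_iff] at h4
      obtain ⟨Z, hZ, h5⟩ := h4
      exact hf2 Z (hfin.mem_toFinset.1 hZ) h5
    · rintro ⟨_, ⟨Z, -, rfl⟩, hz⟩
      exact hz.1

/-- The set `Y` of points over `K` is empty, or it is dominated by a product of affine spaces and
double covers `w² = f(z)` branched along smooth quartics (the blocks `Blk` of the starting files): `Y`
contains the image of a rational map `t ↦ (P₁(t)/g(t), …, P_n(t)/g(t))` defined over `K` on the product
of the sets `T j`, and the image is Zariski dense in `Y`. -/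
def Dominated {K : Type} [Field K] {n : ℕ} (Y : Set (Fin n → K)) : Prop :=
  Y = ∅ ∨ ∃ (s : ℕ) (e : Fin s → ℕ) (T : ∀ j, Set (Fin (e j + 1) → K))
    (g : MvPolynomial ((j : Fin s) × Fin (e j + 1)) K)
    (P : Fin n → MvPolynomial ((j : Fin s) × Fin (e j + 1)) K), (∀ j, Blk (T j)) ∧
    (∀ t : (j : Fin s) × Fin (e j + 1) → K, (∀ j, (fun r => t ⟨j, r⟩) ∈ T j) → eval t g ≠ 0 →
      (fun k => eval t (P k) / eval t g) ∈ Y) ∧
    ∀ h : MvPolynomial (Fin n) K,
      (∀ t : (j : Fin s) × Fin (e j + 1) → K, (∀ j, (fun r => t ⟨j, r⟩) ∈ T j) → eval t g ≠ 0 →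
        eval (fun k => eval t (P k) / eval t g) h = 0) →
      ∀ z ∈ Y, eval z h = 0

/-- a finite union of dominated sets -/
def Blk2 {K : Type} [Field K] {n : ℕ} (S : Set (Fin n → K)) : Prop :=
  ∃ (k : ℕ) (Y : Fin k → Set (Fin n → K)), (∀ i, Dominated (Y i)) ∧ S = ⋃ i, Y i

/-- unirational sets are dominated by an affine space -/
theorem Unirational.dominated {n : ℕ} {Y : Set (Fin n → K)} (hY : Unirational Y) :
    Dominated Y := by
  rcases hY with h | ⟨m, g, P, hg, h1, h2⟩
  · exact Or.inl h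
  right
  -- one factor, an affine space of dimension `m + 1`
  let em : Fin m → (j : Fin 1) × Fin ((fun _ : Fin 1 => m) j + 1) := fun i => ⟨0, i.castSucc⟩
  have hem : ∀ (t : (j : Fin 1) × Fin ((fun _ : Fin 1 => m) j + 1) → K) (F : MvPolynomial (Fin m) K),
      eval t (rename em F) = eval (fun i => t (em i)) F := fun t F => by
    rw [eval_rename]
    rfl
  have hsurj : ∀ s : Fin m → K, ∃ t : (j : Fin 1) × Fin ((fun _ : Fin 1 => m) j + 1) → K,
      (fun i => t (em i)) = s := by
    intro s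
    refine ⟨fun x => if h : (x.2 : ℕ) < m then s ⟨x.2, h⟩ else 0, ?_⟩
    funext i
    show (if h : ((em i).2 : ℕ) < m then s ⟨(em i).2, h⟩ else 0) = s i
    have h3 : ((em i).2 : ℕ) = i := rfl
    rw [dif_pos (by rw [h3]; exact i.2)]
    congr 1
  refine ⟨1, fun _ => m, fun _ => Set.univ, rename em g, fun k => rename em (P k),
    fun _ => Or.inl rfl, fun t _ ht => ?_, fun h hh z hz => ?_⟩
  · simp only [hem] at ht ⊢
    exact h1 _ ht
  · refine h2 h (fun s hs => ?_) z hz
    obtain ⟨t, ht⟩ := hsurj s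
    have h3 := hh t (fun _ => Set.mem_univ _) (by rw [hem, ht]; exact hs)
    simp only [hem, ht] at h3
    exact h3

theorem FU.blk2 {n : ℕ} {S : Set (Fin n → K)} (h : FU S) : Blk2 S := by
  obtain ⟨k, Y, hY, hS⟩ := h
  exact ⟨k, Y, fun i => (hY i).dominated, hS⟩

/-- the blocks of the starting files are dominated by themselves -/
theorem blk2_of_blk {n : ℕ} {S : Set (Fin (n + 1) → K)} (hS : Blk S) : Blk2 S := by
  refine ⟨1, fun _ => S, fun _ => Or.inr ⟨1, fun _ => n, fun _ => S, 1, fun k => X ⟨0, k⟩,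
    fun _ => hS, fun t ht _ => ?_, fun h hh z hz => ?_⟩, (Set.iUnion_const S).symm⟩
  · have h1 : (fun k => eval t (X ⟨0, k⟩) / eval t 1) = fun k => t ⟨0, k⟩ := by
      funext k
      rw [eval_X, map_one, div_one]
    rw [h1]
    exact ht 0
  · have h1 := hh (fun x => z x.2) (fun _ => hz) (by simp)
    simpa using h1

variable [CharZero K] {n : ℕ}

theorem Dominated.fcp (hO : Pool.Agent.TH783.CE.Flat O) (φ : K →+* ℂ) {Y : Set (Fin n → K)}
    (hY : Dominated Y) : FCP O Y := by
  rcases hY with rfl | ⟨s, e, T, g, P, hT, h1, h2⟩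
  · exact FCP.of_finite Set.finite_empty
  · exact fcp_of_dom (FCP.pi Pool.Agent.Y394.FQ.pi fun j => (hT j).fcp Pool.Agent.Y48.FQ.seq
      Pool.Agent.Y349.FQ.mvf Pool.Agent.Y67.FQ.line bd hO φ) g P h1 h2

lemma fcp_iUnion {k : ℕ} {Y : Fin k → Set (Fin n → K)} (hY : ∀ i, FCP O (Y i)) :
    FCP O (⋃ i, Y i) := by
  induction k with
  | zero =>
    have : (⋃ i, Y i) = ∅ := by
      ext x
      simp
    rw [this]
    exact FCP.of_finite Set.finite_empty
  | succ k ih =>
    have : (⋃ i, Y i) = Y 0 ∪ ⋃ i : Fin k, Y i.succ := by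
      ext x
      simp only [Set.mem_iUnion, Set.mem_union]
      constructor
      · rintro ⟨i, hi⟩
        refine Fin.cases (fun h => Or.inl h) (fun j h => Or.inr ⟨j, h⟩) i hi
      · rintro (h | ⟨j, h⟩)
        · exact ⟨0, h⟩
        · exact ⟨j.succ, h⟩
    rw [this]
    exact (hY 0).union (ih fun i => hY i.succ)

theorem Blk2.fcp (hO : Pool.Agent.TH783.CE.Flat O) (φ : K →+* ℂ) {S : Set (Fin n → K)}
    (hS : Blk2 S) : FCP O S := by
  obtain ⟨k, Y, hY, rfl⟩ := hS
  exact fcp_iUnion fun i => (hY i).fcp hO φ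

theorem fin_vals2 (hO : Pool.Agent.TH783.CE.Flat O) (φ : K →+* ℂ) {b : ℕ} {d : Fin b → ℕ}
    {S : ∀ j, Set (Fin (d j + 1) → K)} (hS : ∀ j, Blk2 (S j))
    (p q : MvPolynomial ((j : Fin b) × Fin (d j + 1)) K)
    (h : ∀ t, (∃ x : (j : Fin b) × Fin (d j + 1) → K, (∀ j, (fun r => x ⟨j, r⟩) ∈ S j) ∧
      eval x q ≠ 0 ∧ t = eval x p / eval x q) → t ∈ O) :
    {t | ∃ x : (j : Fin b) × Fin (d j + 1) → K, (∀ j, (fun r => x ⟨j, r⟩) ∈ S j) ∧
      eval x q ≠ 0 ∧ t = eval x p / eval x q}.Finite :=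
  (FCP.pi Pool.Agent.Y394.FQ.pi fun j => (hS j).fcp hO φ).values p q
    fun x hx hq => h _ ⟨x, hx, hq, rfl⟩

end Pool.Agent.R565.PU
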