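import Pool.Agent.R565.PU.Uni

/-!
# The points of an affine quadric are a finite union of unirational sets
-/

set_option autoImplicit false

namespace Pool.Agent.R565.PU

open MvPolynomial Module

variable {K : Type} [Field K] {n : ℕ}

/-- finite unions of unirational sets -/
def FU (S : Set (Fin n → K)) : Prop :=
  ∃ (k : ℕ) (Y : Fin k → Set (Fin n → K)), (∀ i, Unirational (Y i)) ∧ S = ⋃ i, Y i

lemma Unirational.fu {S : Set (Fin n → K)} (h : Unirational S) : FU S :=
  ⟨1, fun _ => S, fun _ => h, (Set.iUnion_const S).symm⟩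

lemma FU.union {S T : Set (Fin n → K)} (hS : FU S) (hT : FU T) : FU (S ∪ T) := by
  obtain ⟨k, Y, hY, rfl⟩ := hS
  obtain ⟨l, Z, hZ, rfl⟩ := hT
  refine ⟨k + l, Fin.append Y Z, fun i => ?_, ?_⟩
  · refine Fin.addCases (fun i => ?_) (fun i => ?_) i
    · rw [Fin.append_left]
      exact hY i
    · rw [Fin.append_right]
      exact hZ i
  · ext x
    simp only [Set.mem_union, Set.mem_iUnion]
    constructor
    · rintro (⟨i, hi⟩ | ⟨i, hi⟩)
      · exact ⟨Fin.castAdd l i, by rw [Fin.append_left]; exact hi⟩
      · exact ⟨Fin.natAdd k i, by rw [Fin.append_right]; exact hi⟩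
    · rintro ⟨i, hi⟩
      revert hi
      refine Fin.addCases (fun i hi => ?_) (fun i hi => ?_) i
      · rw [Fin.append_left] at hi
        exact Or.inl ⟨i, hi⟩
      · rw [Fin.append_right] at hi
        exact Or.inr ⟨i, hi⟩

/-- a linear functional as a polynomial -/
noncomputable def lp (l : (Fin n → K) →ₗ[K] K) : MvPolynomial (Fin n) K :=
  ∑ i, C (l (Pi.single i 1)) * X i

lemma lp_eval (l : (Fin n → K) →ₗ[K] K) (t : Fin n → K) : eval t (lp l) = l t := by
  rw [lp, map_sum]
  conv_rhs => rw [← Finset.univ_sum_single t, map_sum]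
  refine Finset.sum_congr rfl fun i _ => ?_
  have h1 : (Pi.single i (t i) : Fin n → K) = t i • Pi.single i 1 := by
    ext j
    by_cases h : j = i
    · subst h; simp
    · simp [h]
  rw [map_mul, eval_C, eval_X, h1, map_smul, smul_eq_mul, mul_comm]

/-- affine subspaces -/
lemma uni_affine (z0 : Fin n → K) (W : Submodule K (Fin n → K)) :
    Unirational {z : Fin n → K | z - z0 ∈ W} := by
  right
  obtain ⟨W', hW'⟩ := W.exists_isCompl
  let π : (Fin n → K) →ₗ[K] (Fin n → K) := W.subtype ∘ₗ W.projectionOnto W' hW'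
  have h1 : ∀ t, π t ∈ W := fun t => (W.projectionOnto W' hW' t).2
  have h2 : ∀ w ∈ W, π w = w := fun w hw => by
    show ((W.projectionOnto W' hW' w : W) : Fin n → K) = w
    rw [Submodule.projectionOnto_apply_left hW' ⟨w, hw⟩]
  have hev : ∀ t : Fin n → K, (fun k => eval t (C (z0 k) + lp (LinearMap.proj k ∘ₗ π)) /
      eval t (1 : MvPolynomial (Fin n) K)) = z0 + π t := by
    intro t
    funext k
    rw [map_add, eval_C, lp_eval, map_one, div_one]
    rfl
  refine ⟨n, 1, fun k => C (z0 k) + lp (LinearMap.proj k ∘ₗ π), one_ne_zero, fun t _ => ?_,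
    fun h hh z hz => ?_⟩
  · rw [hev t]
    show z0 + π t - z0 ∈ W
    rw [add_sub_cancel_left]
    exact h1 t
  · have h3 := hh (z - z0) (by simp)
    rw [hev, h2 _ hz, add_sub_cancel] at h3
    exact h3

/-- affine hyperplanes -/
lemma uni_hyper (a : K) (l : (Fin n → K) →ₗ[K] K) :
    Unirational {z : Fin n → K | a + l z = 0} := by
  by_cases hY : {z : Fin n → K | a + l z = 0} = ∅
  · exact Or.inl hY
  obtain ⟨z0, hz0⟩ := Set.nonempty_iff_ne_empty.2 hY
  replace hz0 : a + l z0 = 0 := hz0
  have : {z : Fin n → K | a + l z = 0} = {z | z - z0 ∈ LinearMap.ker l} := by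
    ext z
    show a + l z = 0 ↔ z - z0 ∈ LinearMap.ker l
    rw [LinearMap.mem_ker, map_sub]
    constructor
    · intro h
      linear_combination h - hz0
    · intro h
      linear_combination h + hz0
  rw [this]
  exact uni_affine z0 _

lemma eval_monomial' (m : Fin n →₀ ℕ) (c : K) (i : Fin n) (z : Fin n → K) :
    eval z (monomial (Finsupp.single i 1 + m) c) = z i * eval z (monomial m c) := by
  rw [show (monomial (Finsupp.single i 1 + m)) c = X i * monomial m c by
    rw [X, monomial_mul, one_mul], map_mul, eval_X]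

lemma split_off {m : Fin n →₀ ℕ} (hm : m ≠ 0) : ∃ i m', m = Finsupp.single i 1 + m' ∧
    m.degree = m'.degree + 1 := by
  obtain ⟨i, hi⟩ : ∃ i, m i ≠ 0 := by
    by_contra h
    push Not at h
    exact hm (Finsupp.ext h)
  have h1 : m = Finsupp.single i 1 + (m - Finsupp.single i 1) := by
    ext j
    rw [Finsupp.add_apply, Finsupp.tsub_apply]
    by_cases h : j = i
    · subst h
      rw [Finsupp.single_eq_same]
      omega
    · rw [Finsupp.single_eq_of_ne h]
      omega
  refine ⟨i, m - Finsupp.single i 1, h1, ?_⟩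
  conv_lhs => rw [h1]
  rw [map_add, Finsupp.degree_single, add_comm]

lemma deg_le_of_mem {Q : MvPolynomial (Fin n) K} {d : ℕ} (hQ : Q.totalDegree ≤ d)
    {m : Fin n →₀ ℕ} (hm : m ∈ Q.support) : m.degree ≤ d := by
  have h : m.degree = m.sum fun _ e => e := by
    simp [Finsupp.degree_eq_sum, Finsupp.sum_fintype]
  rw [h]
  exact (le_totalDegree hm).trans hQ

lemma deg_one {Q : MvPolynomial (Fin n) K} (hQ : Q.totalDegree ≤ 1) :
    ∃ (a : K) (l : (Fin n → K) →ₗ[K] K), ∀ z, eval z Q = a + l z := by
  have key : ∀ m ∈ Q.support, ∃ (a : K) (l : (Fin n → K) →ₗ[K] K),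
      ∀ z, eval z (monomial m (coeff m Q)) = a + l z := by
    intro m hm
    have hd := deg_le_of_mem hQ hm
    by_cases h0 : m = 0
    · subst h0
      exact ⟨coeff 0 Q, 0, fun z => by simp⟩
    · obtain ⟨i, m', h1, h2⟩ := split_off h0
      have h3 : m' = 0 := by
        rw [← Finsupp.degree_eq_zero_iff]
        omega
      refine ⟨0, coeff m Q • LinearMap.proj i, fun z => ?_⟩
      rw [h1, eval_monomial', h3]
      simp [mul_comm]
  choose! a l hal using key
  refine ⟨∑ m ∈ Q.support, a m, ∑ m ∈ Q.support, l m, fun z => ?_⟩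
  conv_lhs => rw [Q.as_sum]
  rw [map_sum, LinearMap.sum_apply, ← Finset.sum_add_distrib]
  exact Finset.sum_congr rfl fun m hm => hal m hm z

/-- quadratic functions -/
lemma deg_two {Q : MvPolynomial (Fin n) K} (hQ : Q.totalDegree ≤ 2) :
    ∃ (a : K) (l : (Fin n → K) →ₗ[K] K) (β : (Fin n → K) →ₗ[K] (Fin n → K) →ₗ[K] K),
      ∀ z, eval z Q = a + l z + β z z := by
  have key : ∀ m ∈ Q.support, ∃ (a : K) (l : (Fin n → K) →ₗ[K] K)
      (β : (Fin n → K) →ₗ[K] (Fin n → K) →ₗ[K] K),
      ∀ z, eval z (monomial m (coeff m Q)) = a + l z + β z z := by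
    intro m hm
    have hd := deg_le_of_mem hQ hm
    by_cases h0 : m = 0
    · subst h0
      exact ⟨coeff 0 Q, 0, 0, fun z => by simp⟩
    · obtain ⟨i, m', h1, h2⟩ := split_off h0
      by_cases h3 : m' = 0
      · refine ⟨0, coeff m Q • LinearMap.proj i, 0, fun z => ?_⟩
        rw [h1, eval_monomial', h3]
        simp [mul_comm]
      · obtain ⟨j, m'', h4, h5⟩ := split_off h3
        have h6 : m'' = 0 := by
          rw [← Finsupp.degree_eq_zero_iff]
          omega
        refine ⟨0, 0, LinearMap.mk₂ K (fun x y => coeff m Q * (x i * y j)) ?_ ?_ ?_ ?_,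
          fun z => ?_⟩
        · intro x x' y
          simp only [Pi.add_apply]
          ring
        · intro c x y
          simp only [Pi.smul_apply, smul_eq_mul]
          ring
        · intro x y y'
          simp only [Pi.add_apply]
          ring
        · intro c x y
          simp only [Pi.smul_apply, smul_eq_mul]
          ring
        · have h7 : ∀ c : K, eval z (monomial m c) = z i * (z j * c) := by
            intro c
            rw [h1, eval_monomial', h4, eval_monomial', h6]
            simp
          rw [LinearMap.mk₂_apply, h7, LinearMap.zero_apply]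
          ring
  choose! a l β hal using key
  refine ⟨∑ m ∈ Q.support, a m, ∑ m ∈ Q.support, l m, ∑ m ∈ Q.support, β m, fun z => ?_⟩
  conv_lhs => rw [Q.as_sum]
  rw [map_sum, LinearMap.sum_apply, LinearMap.sum_apply, LinearMap.sum_apply,
    ← Finset.sum_add_distrib, ← Finset.sum_add_distrib]
  exact Finset.sum_congr rfl fun m hm => hal m hm z

/-- the constant polynomial shift `Q(z0 + X)` -/
noncomputable def sh (z0 : Fin n → K) (Q : MvPolynomial (Fin n) K) : MvPolynomial (Fin n) K :=
  bind₁ (fun i => C (z0 i) + X i) Q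

/-- `Q(z0 - X)` -/
noncomputable def sh' (z0 : Fin n → K) (Q : MvPolynomial (Fin n) K) : MvPolynomial (Fin n) K :=
  bind₁ (fun i => C (z0 i) - X i) Q

lemma sh_aeval (z0 : Fin n → K) (Q : MvPolynomial (Fin n) K) {F : Type} [Field F] [Algebra K F]
    (t : Fin n → F) : aeval t (sh z0 Q) = aeval (fun i => algebraMap K F (z0 i) + t i) Q := by
  rw [sh, aeval_bind₁]
  congr 2
  funext i
  simp

lemma sh_eval (z0 : Fin n → K) (Q : MvPolynomial (Fin n) K) (t : Fin n → K) :
    eval t (sh z0 Q) = eval (z0 + t) Q := by
  have := sh_aeval z0 Q t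
  simp only [Algebra.algebraMap_self, RingHom.id_apply] at this
  exact this

lemma sh'_eval (z0 : Fin n → K) (Q : MvPolynomial (Fin n) K) (t : Fin n → K) :
    eval t (sh' z0 Q) = eval (z0 - t) Q := by
  have h : aeval t (sh' z0 Q) = aeval (fun i => z0 i - t i) Q := by
    rw [sh', aeval_bind₁]
    congr 2
    funext i
    simp
  exact h

/-- **The points of an affine quadric are a finite union of unirational sets.** -/
theorem fu_quadric [CharZero K] (Q : MvPolynomial (Fin n) K) (hQ : Q.totalDegree ≤ 2) :
    FU {z : Fin n → K | eval z Q = 0} := by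
  by_cases hQ0 : Q = 0
  · subst hQ0
    have h1 : {z : Fin n → K | eval z (0 : MvPolynomial (Fin n) K) = 0} =
        {z | z - (0 : Fin n → K) ∈ (⊤ : Submodule K (Fin n → K))} := by
      ext z
      simp
    rw [h1]
    exact (uni_affine 0 ⊤).fu
  by_cases hS : {z : Fin n → K | eval z Q = 0} = ∅
  · exact (show Unirational _ from Or.inl hS).fu
  obtain ⟨z1, hz1⟩ := Set.nonempty_iff_ne_empty.2 hS
  replace hz1 : eval z1 Q = 0 := hz1
  have hnu : ¬ IsUnit Q := by
    intro hu
    have := hu.map (eval z1)
    rw [hz1] at this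
    exact not_isUnit_zero this
  by_cases hirr : Irreducible Q
  swap
  · -- two hyperplanes
    obtain ⟨A, B, hAB, hA, hB⟩ : ∃ A B, Q = A * B ∧ ¬ IsUnit A ∧ ¬ IsUnit B := by
      by_contra hcon
      push Not at hcon
      exact hirr ⟨hnu, fun a b hab => by
        by_cases ha : IsUnit a
        · exact Or.inl ha
        · exact Or.inr (hcon a b hab ha)⟩
    have hA0 : A ≠ 0 := by
      rintro rfl
      exact hQ0 (by rw [hAB, zero_mul])
    have hB0 : B ≠ 0 := by
      rintro rfl
      exact hQ0 (by rw [hAB, mul_zero])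
    have hdeg : A.totalDegree + B.totalDegree ≤ 2 := by
      rw [← totalDegree_mul_of_isDomain hA0 hB0, ← hAB]
      exact hQ
    have hpos : ∀ P : MvPolynomial (Fin n) K, P ≠ 0 → ¬ IsUnit P → 1 ≤ P.totalDegree := by
      intro P hP0 hP
      by_contra hcon
      have h0 : P.totalDegree = 0 := by omega
      rw [totalDegree_eq_zero_iff_eq_C] at h0
      apply hP
      rw [h0]
      refine (isUnit_iff_ne_zero.2 ?_).map C
      intro h1
      rw [h1, map_zero] at h0
      exact hP0 h0
    have h1 := hpos A hA0 hA
    have h2 := hpos B hB0 hB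
    obtain ⟨a, l, hl⟩ := deg_one (Q := A) (by omega)
    obtain ⟨b, m, hm⟩ := deg_one (Q := B) (by omega)
    have h3 : {z : Fin n → K | eval z Q = 0} = {z | a + l z = 0} ∪ {z | b + m z = 0} := by
      ext z
      show eval z Q = 0 ↔ (a + l z = 0 ∨ b + m z = 0)
      rw [hAB, map_mul, mul_eq_zero, hl, hm]
    rw [h3]
    exact (uni_hyper a l).fu.union (uni_hyper b m).fu
  obtain ⟨a, l, β, hval⟩ := deg_two hQ
  by_cases hβ : ∀ v, β v v = 0
  · have h1 : {z : Fin n → K | eval z Q = 0} = {z | a + l z = 0} := by
      ext z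
      show eval z Q = 0 ↔ a + l z = 0
      rw [hval, hβ, add_zero]
    rw [h1]
    exact (uni_hyper a l).fu
  by_cases hsm : ∀ z0 : Fin n → K, eval z0 Q = 0 → ∀ v, l v + β z0 v + β v z0 = 0
  · -- all points are singular
    have hrad : ∀ z0 v : Fin n → K, eval z0 Q = 0 → (eval (z0 + v) Q = 0 ↔
        v ∈ LinearMap.ker (β + β.flip)) := by
      intro z0 v hz0
      have e1 : eval (z0 + v) Q = β v v := by
        have h1 := hsm z0 hz0 v
        rw [hval] at hz0 ⊢
        simp only [map_add, LinearMap.add_apply] at *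
        linear_combination hz0 + h1
      rw [e1, LinearMap.mem_ker]
      constructor
      · intro h0
        ext w
        have h1 := hsm z0 hz0 (Pi.single w 1)
        have h2 := hsm (z0 + v) (by rw [e1]; exact h0) (Pi.single w 1)
        simp only [map_add, LinearMap.add_apply] at h1 h2
        simp only [LinearMap.coe_single,
          LinearMap.add_apply, LinearMap.flip_apply, LinearMap.zero_apply, LinearMap.comp_apply]
        linear_combination h2 - h1
      · intro h0
        have h1 := congrArg (fun f => f v) h0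
        simp only [LinearMap.add_apply, LinearMap.flip_apply, LinearMap.zero_apply] at h1
        have h2 : (2 : K) * β v v = 0 := by linear_combination h1
        exact (mul_eq_zero.1 h2).resolve_left two_ne_zero
    have h1 : {z : Fin n → K | eval z Q = 0} =
        {z | z - z1 ∈ LinearMap.ker (β + β.flip)} := by
      ext z
      show eval z Q = 0 ↔ z - z1 ∈ LinearMap.ker (β + β.flip)
      rw [← hrad z1 (z - z1) hz1, add_sub_cancel]
    rw [h1]
    exact (uni_affine z1 _).fu
  -- an irreducible quadric with a smooth point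
  push Not at hsm hβ
  obtain ⟨z0, hz0, v1, hv1⟩ := hsm
  obtain ⟨v2, hv2⟩ := hβ
  refine Unirational.fu (Or.inr ?_)
  obtain ⟨A, hA⟩ : ∃ A : MvPolynomial (Fin n) K, A = C (1 / 2) * (sh z0 Q + sh' z0 Q) := ⟨_, rfl⟩
  obtain ⟨B, hB⟩ : ∃ B : MvPolynomial (Fin n) K, B = C (1 / 2) * (sh z0 Q - sh' z0 Q) := ⟨_, rfl⟩
  have hAe : ∀ v, eval v A = β v v := by
    intro v
    rw [hA, map_mul, map_add, eval_C, sh_eval, sh'_eval, hval, hval]
    rw [hval] at hz0
    simp only [map_add, map_sub, LinearMap.add_apply, LinearMap.sub_apply]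
    linear_combination hz0
  have hBe : ∀ v, eval v B = l v + β z0 v + β v z0 := by
    intro v
    rw [hB, map_mul, map_sub, eval_C, sh_eval, sh'_eval, hval, hval]
    simp only [map_add, map_sub, LinearMap.add_apply, LinearMap.sub_apply]
    ring
  have hline : ∀ (v : Fin n → K) (s : K), eval (z0 + s • v) Q = s * eval v B + s ^ 2 * eval v A := by
    intro v s
    rw [hAe, hBe, hval]
    rw [hval] at hz0
    simp only [map_add, map_smul, LinearMap.add_apply, LinearMap.smul_apply, smul_eq_mul]
    linear_combination hz0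
  have hA0 : A ≠ 0 := by
    intro h0
    apply hv2
    rw [← hAe, h0, map_zero]
  have hB0 : B ≠ 0 := by
    intro h0
    apply hv1
    rw [← hBe, h0, map_zero]
  have hAB : A + B = sh z0 Q := by
    rw [hA, hB, ← mul_add]
    have : sh z0 Q + sh' z0 Q + (sh z0 Q - sh' z0 Q) = C 2 * sh z0 Q := by
      rw [show (C 2 : MvPolynomial (Fin n) K) = 2 from map_ofNat C 2]
      ring
    rw [this, ← mul_assoc, ← C_mul]
    norm_num
  refine ⟨n, A, fun k => C (z0 k) * A - B * X k, hA0, fun t ht => ?_, fun h hh z hz => ?_⟩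
  · show eval (fun k => eval t (C (z0 k) * A - B * X k) / eval t A) Q = 0
    have h1 : (fun k => eval t (C (z0 k) * A - B * X k) / eval t A) =
        z0 + (-(eval t B / eval t A)) • t := by
      funext k
      rw [map_sub, map_mul, map_mul, eval_C, eval_X]
      simp only [Pi.add_apply, Pi.smul_apply, smul_eq_mul]
      field_simp
      ring
    rw [h1, hline]
    field_simp
    ring
  · -- the function field
    have hprime : Prime Q := hirr.prime
    let I : Ideal (MvPolynomial (Fin n) K) := Ideal.span {Q}
    have hI : I.IsPrime := (Ideal.span_singleton_prime hQ0).2 hprime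
    let R := MvPolynomial (Fin n) K ⧸ I
    let F := FractionRing R
    let ξ : Fin n → F := fun k => algebraMap R F (Ideal.Quotient.mk I (X k))
    have hξ : ∀ p : MvPolynomial (Fin n) K, aeval ξ p = algebraMap R F (Ideal.Quotient.mk I p) := by
      intro p
      induction p using MvPolynomial.induction_on with
      | C c =>
        rw [aeval_C]
        rfl
      | add p q hp hq => rw [map_add, map_add, map_add, hp, hq]
      | mul_X p k hp => rw [map_mul, map_mul, map_mul, hp, aeval_X]
    have hzero : ∀ p : MvPolynomial (Fin n) K, aeval ξ p = 0 → Q ∣ p := by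
      intro p hp
      rw [hξ, map_eq_zero_iff _ (IsFractionRing.injective R F), Ideal.Quotient.eq_zero_iff_mem,
        Ideal.mem_span_singleton] at hp
      exact hp
    have hQξ : aeval ξ Q = 0 := by
      rw [hξ]
      have : Ideal.Quotient.mk I Q = 0 :=
        Ideal.Quotient.eq_zero_iff_mem.2 (Ideal.mem_span_singleton_self Q)
      rw [this, map_zero]
    let t : Fin n → F := fun k => ξ k - algebraMap K F (z0 k)
    have ht1 : aeval t A + aeval t B = 0 := by
      rw [← map_add, hAB, sh_aeval]
      have : (fun i => algebraMap K F (z0 i) + t i) = ξ := by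
        funext i
        show algebraMap K F (z0 i) + (ξ i - algebraMap K F (z0 i)) = ξ i
        ring
      rw [this, hQξ]
    have ht2 : aeval t A ≠ 0 := by
      intro h0
      have h1 : aeval ξ (sh (-z0) A) = 0 := by
        rw [sh_aeval, ← h0]
        congr 2
        funext i
        show algebraMap K F (-z0 i) + ξ i = ξ i - algebraMap K F (z0 i)
        rw [map_neg]
        ring
      obtain ⟨R', hR'⟩ := hzero _ h1
      obtain ⟨v, hv⟩ : ∃ v : Fin n → K, eval v (A * B) ≠ 0 := by
        by_contra hcon
        push Not at hcon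
        exact mul_ne_zero hA0 hB0 (MvPolynomial.funext fun e => by rw [hcon e, map_zero])
      rw [map_mul] at hv
      have hvA := left_ne_zero_of_mul hv
      have hvB := right_ne_zero_of_mul hv
      have h2 := congrArg (eval (z0 + (-(eval v B / eval v A)) • v)) hR'
      rw [sh_eval, map_mul, hline] at h2
      have h3 : -z0 + (z0 + (-(eval v B / eval v A)) • v) = (-(eval v B / eval v A)) • v := by
        rw [neg_add_cancel_left]
      rw [h3, hAe] at h2
      have h4 : β ((-(eval v B / eval v A)) • v) ((-(eval v B / eval v A)) • v) =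
          (eval v B / eval v A) ^ 2 * eval v A := by
        rw [hAe]
        simp only [map_neg, map_smul, LinearMap.neg_apply, LinearMap.smul_apply, smul_eq_mul, neg_smul]
        ring
      rw [h4] at h2
      have h5 : -(eval v B / eval v A) * eval v B + (-(eval v B / eval v A)) ^ 2 * eval v A = 0 := by
        field_simp
        ring
      rw [h5, zero_mul] at h2
      exact mul_ne_zero (pow_ne_zero 2 (div_ne_zero hvB hvA)) hvA h2
    have h1 := vanish_ext hh F t ht2
    have h2 : (fun k => aeval t (C (z0 k) * A - B * X k) / aeval t A) = ξ := by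
      funext k
      rw [map_sub, map_mul, map_mul, aeval_C, aeval_X, div_eq_iff ht2]
      show algebraMap K F (z0 k) * aeval t A - aeval t B * (ξ k - algebraMap K F (z0 k)) =
        ξ k * aeval t A
      linear_combination (-(ξ k) + algebraMap K F (z0 k)) * ht1
    rw [h2] at h1
    obtain ⟨R', hR'⟩ := hzero h h1
    replace hz : eval z Q = 0 := hz
    rw [hR', map_mul, hz, zero_mul]

end Pool.Agent.R565.PU
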