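import Mathlib

/-!
# Unirational sets of points; norm varieties are unirational
-/

set_option autoImplicit false

namespace Pool.Agent.R565.PU

open MvPolynomial Module

section clear

variable {K : Type} [Field K] {κ σ : Type}

/-- clearing denominators -/
theorem exists_clear (g : MvPolynomial κ K) (P : σ → MvPolynomial κ K) (h : MvPolynomial σ K) :
    ∃ (N : ℕ) (H : MvPolynomial κ K), ∀ (F : Type) [Field F] [Algebra K F] (t : κ → F),
      aeval t g ≠ 0 →
      aeval t H = (aeval t g) ^ N * aeval (fun k => aeval t (P k) / aeval t g) h := by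
  induction h using MvPolynomial.induction_on with
  | C c => exact ⟨0, C c, fun F _ _ t _ => by simp⟩
  | add p q hp hq =>
    obtain ⟨N, H, hH⟩ := hp
    obtain ⟨M, G, hG⟩ := hq
    refine ⟨N + M, H * g ^ M + G * g ^ N, fun F _ _ t ht => ?_⟩
    rw [map_add, map_mul, map_mul, map_pow, map_pow, hH F t ht, hG F t ht, map_add]
    ring
  | mul_X p k hp =>
    obtain ⟨N, H, hH⟩ := hp
    refine ⟨N + 1, H * P k, fun F _ _ t ht => ?_⟩
    rw [map_mul, hH F t ht, map_mul, aeval_X, pow_succ]
    field_simp
    try ring

/-- a polynomial which vanishes on the image of a rational map at the `K`-points vanishes there at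
the points over all extensions -/
theorem vanish_ext [Infinite K] {g : MvPolynomial κ K} {P : σ → MvPolynomial κ K}
    {h : MvPolynomial σ K}
    (hv : ∀ t : κ → K, eval t g ≠ 0 → eval (fun k => eval t (P k) / eval t g) h = 0)
    (F : Type) [Field F] [Algebra K F] (t : κ → F) (ht : aeval t g ≠ 0) :
    aeval (fun k => aeval t (P k) / aeval t g) h = 0 := by
  obtain ⟨N, H, hH⟩ := exists_clear g P h
  have hg : g ≠ 0 := by
    rintro rfl
    exact ht (map_zero _)
  have h0 : H * g = 0 := by
    refine MvPolynomial.funext fun e => ?_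
    rw [map_mul, map_zero]
    by_cases he : eval e g = 0
    · rw [he, mul_zero]
    · have h1 := hH K e (by rw [← coe_aeval_eq_eval] at he; exact he)
      have h2 := hv e he
      simp only [← coe_aeval_eq_eval, RingHom.coe_coe] at h1 h2 ⊢
      rw [h1, h2, mul_zero, zero_mul]
  have h1 : H = 0 := (mul_eq_zero.1 h0).resolve_right hg
  have h2 := hH F t ht
  rw [h1, map_zero] at h2
  exact (mul_eq_zero.1 h2.symm).resolve_left (pow_ne_zero _ ht)

end clear

/-- The set `Y` of points over `K` is empty or it contains the image of a rational map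
`t ↦ (P₁(t)/g(t), …, P_n(t)/g(t))` from an affine space over `K`, and this image is Zariski dense in
`Y`. -/
def Unirational {K : Type} [Field K] {n : ℕ} (Y : Set (Fin n → K)) : Prop :=
  Y = ∅ ∨ ∃ (m : ℕ) (g : MvPolynomial (Fin m) K) (P : Fin n → MvPolynomial (Fin m) K), g ≠ 0 ∧
    (∀ t : Fin m → K, eval t g ≠ 0 → (fun k => eval t (P k) / eval t g) ∈ Y) ∧
    ∀ h : MvPolynomial (Fin n) K,
      (∀ t : Fin m → K, eval t g ≠ 0 → eval (fun k => eval t (P k) / eval t g) h = 0) →
      ∀ z ∈ Y, eval z h = 0

section norm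

variable {K L : Type} [Field K] [Field L] [Algebra K L] {n : ℕ}

/-- coordinates of the coefficients -/
lemma exists_coords (b : Basis (Fin n) K L) {κ : Type} (F : MvPolynomial κ L) :
    ∃ G : Fin n → MvPolynomial κ K, F = ∑ k, C (b k) * map (algebraMap K L) (G k) := by
  induction F using MvPolynomial.induction_on with
  | C c =>
    refine ⟨fun k => C (b.repr c k), ?_⟩
    simp only [map_C, ← C_mul]
    rw [← map_sum]
    congr 1
    conv_lhs => rw [← b.sum_repr c]
    refine Finset.sum_congr rfl fun k _ => ?_
    rw [Algebra.smul_def, mul_comm]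
  | add p q hp hq =>
    obtain ⟨G, hG⟩ := hp
    obtain ⟨H, hH⟩ := hq
    refine ⟨fun k => G k + H k, ?_⟩
    rw [hG, hH, ← Finset.sum_add_distrib]
    refine Finset.sum_congr rfl fun k _ => ?_
    rw [map_add, mul_add]
  | mul_X p j hp =>
    obtain ⟨G, hG⟩ := hp
    refine ⟨fun k => G k * X j, ?_⟩
    rw [hG, Finset.sum_mul]
    refine Finset.sum_congr rfl fun k _ => ?_
    rw [map_mul, map_X, mul_assoc]

/-- the norm form -/
noncomputable def NP (b : Basis (Fin n) K L) : MvPolynomial (Fin n) K :=
  (∑ i, (X i : MvPolynomial (Fin n) K) •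
    ((Algebra.leftMulMatrix b (b i)).map (C : K →+* MvPolynomial (Fin n) K))).det

lemma NP_eval (b : Basis (Fin n) K L) (t : Fin n → K) :
    eval t (NP b) = Algebra.norm K (∑ i, t i • b i) := by
  rw [Algebra.norm_eq_matrix_det b, NP, RingHom.map_det]
  congr 1
  ext r s
  simp [Matrix.sum_apply, map_sum]

variable [CharZero K] [FiniteDimensional K L]

lemma NP_emb (b : Basis (Fin n) K L) (Ω : Type) [Field Ω] [Algebra K Ω] [IsAlgClosed Ω]
    (t : Fin n → Ω) : aeval t (NP b) = ∏ σ : L →ₐ[K] Ω, ∑ i, σ (b i) * t i := by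
  have h1 : map (algebraMap K Ω) (NP b) =
      ∏ σ : L →ₐ[K] Ω, ∑ i, C (σ (b i)) * (X i : MvPolynomial (Fin n) Ω) := by
    refine funext_set (fun _ => Set.range (algebraMap K Ω))
      (fun _ => Set.infinite_range_of_injective (algebraMap K Ω).injective) fun x hx => ?_
    have hx' : ∀ i, ∃ s : K, algebraMap K Ω s = x i := fun i => hx i (Set.mem_univ i)
    choose s hs using hx'
    obtain rfl : x = fun i => algebraMap K Ω (s i) := funext fun i => (hs i).symm
    have h3 : eval₂ (algebraMap K Ω) (fun i => algebraMap K Ω (s i)) (NP b) =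
        algebraMap K Ω (eval s (NP b)) := (eval₂_comp _ _ _).symm
    rw [eval_map, h3, map_prod, NP_eval b s, Algebra.norm_eq_prod_embeddings K Ω]
    refine Finset.prod_congr rfl fun σ _ => ?_
    rw [map_sum, map_sum]
    refine Finset.sum_congr rfl fun i _ => ?_
    rw [map_smul, map_mul, eval_C, eval_X, Algebra.smul_def, mul_comm]
  have h2 : aeval t (NP b) = eval t (map (algebraMap K Ω) (NP b)) := by
    rw [eval_map]
    rfl
  rw [h2, h1, map_prod]
  refine Finset.prod_congr rfl fun σ _ => ?_
  rw [map_sum]
  refine Finset.sum_congr rfl fun i _ => ?_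
  rw [map_mul, eval_C, eval_X]

/-- **Norm varieties are unirational.** -/
theorem norm_unirational (b : Basis (Fin n) K L) (c : K) :
    Unirational {z : Fin n → K | Algebra.norm K (∑ i, z i • b i) = c} := by
  classical
  have hn : finrank K L = n := by rw [finrank_eq_card_basis b, Fintype.card_fin]
  have hn0 : 0 < n := by rw [← hn]; exact finrank_pos
  by_cases hc : c = 0
  · subst hc
    right
    have key : ∀ z : Fin n → K, Algebra.norm K (∑ i, z i • b i) = 0 ↔ z = 0 := by
      intro z
      rw [Algebra.norm_eq_zero_iff]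
      constructor
      · intro h
        have := Fintype.linearIndependent_iff.1 b.linearIndependent z h
        exact funext this
      · rintro rfl
        simp
    refine ⟨0, 1, fun _ => 0, one_ne_zero, fun t _ => ?_, fun h hh z hz => ?_⟩
    · show Algebra.norm K (∑ i, (fun k : Fin n => eval t (0 : MvPolynomial (Fin 0) K) / eval t 1) i • b i) = 0
      rw [key]
      funext k
      simp
    · have hz0 : z = 0 := (key z).1 hz
      have h1 := hh 0 (by simp)
      have h2 : (fun k : Fin n => eval (0 : Fin 0 → K) ((fun _ => 0 : Fin n → MvPolynomial (Fin 0) K) k) /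
          eval (0 : Fin 0 → K) 1) = (0 : Fin n → K) := by
        funext k
        simp
      rw [h2] at h1
      rw [hz0]
      exact h1
  by_cases hY : {z : Fin n → K | Algebra.norm K (∑ i, z i • b i) = c} = ∅
  · exact Or.inl hY
  right
  obtain ⟨x0, hx0⟩ := Set.nonempty_iff_ne_empty.2 hY
  replace hx0 : Algebra.norm K (∑ i, x0 i • b i) = c := hx0
  obtain ⟨x, hx⟩ : ∃ x : L, x = ∑ i, x0 i • b i := ⟨_, rfl⟩
  rw [← hx] at hx0
  have hxne : x ≠ 0 := by
    intro h0
    rw [h0, Algebra.norm_zero] at hx0
    exact hc hx0.symm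
  obtain ⟨P, hP⟩ := exists_coords b (C x * (∑ i, C (b i) * (X i : MvPolynomial (Fin n) L)) ^ n)
  have hPK : ∀ t : Fin n → K, ∑ k, eval t (P k) • b k = x * (∑ i, t i • b i) ^ n := by
    intro t
    have h1 := congrArg (eval fun i => algebraMap K L (t i)) hP
    rw [map_mul, map_pow, map_sum, map_sum, eval_C] at h1
    simp only [map_mul, eval_C, eval_X, eval_map] at h1
    have h2 : ∀ k, eval₂ (algebraMap K L) (fun i => algebraMap K L (t i)) (P k) =
        algebraMap K L (eval t (P k)) := fun k => (eval₂_comp _ _ _).symm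
    simp only [h2] at h1
    have h3 : ∑ i, b i * algebraMap K L (t i) = ∑ i, t i • b i :=
      Finset.sum_congr rfl fun i _ => by rw [Algebra.smul_def, mul_comm]
    rw [h3] at h1
    rw [h1]
    exact Finset.sum_congr rfl fun i _ => by rw [Algebra.smul_def, mul_comm]
  have hg0 : NP b ≠ 0 := by
    intro h0
    have h1 := NP_eval b (b.repr 1)
    rw [h0, map_zero, b.sum_repr, map_one] at h1
    exact zero_ne_one h1
  refine ⟨n, NP b, P, hg0, fun t ht => ?_, fun h hh z hz => ?_⟩
  · -- the image
    obtain ⟨y, hy⟩ : ∃ y : L, y = ∑ i, t i • b i := ⟨_, rfl⟩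
    have hNy : eval t (NP b) = Algebra.norm K y := by rw [NP_eval b t, hy]
    rw [hNy] at ht ⊢
    have h1 : ∑ k, (eval t (P k) / Algebra.norm K y) • b k =
        algebraMap K L (Algebra.norm K y)⁻¹ * (x * y ^ n) := by
      rw [hy, ← hPK t, Finset.mul_sum]
      refine Finset.sum_congr rfl fun k _ => ?_
      rw [Algebra.smul_def, Algebra.smul_def, div_eq_inv_mul, map_mul, mul_assoc]
    show Algebra.norm K (∑ k, (eval t (P k) / Algebra.norm K y) • b k) = c
    rw [h1, map_mul, map_mul, map_pow, Algebra.norm_algebraMap, hn, hx0, inv_pow]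
    field_simp
  · -- density
    replace hz : Algebra.norm K (∑ i, z i • b i) = c := hz
    obtain ⟨zL, hzL⟩ : ∃ zL : L, zL = ∑ i, z i • b i := ⟨_, rfl⟩
    rw [← hzL] at hz
    let Ω := AlgebraicClosure K
    have hcard : Fintype.card (Fin n) = Fintype.card (L →ₐ[K] Ω) := by
      rw [AlgHom.card, Fintype.card_fin, hn]
    let e : Fin n ≃ (L →ₐ[K] Ω) := Fintype.equivOfCardEq hcard
    set M : Matrix (Fin n) (Fin n) Ω := Algebra.embeddingsMatrixReindex K Ω b e with hM
    have hMe : ∀ i j, M i j = e j (b i) := fun i j => rfl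
    have hdet : IsUnit M.det := by
      rw [isUnit_iff_ne_zero]
      intro h0
      have h1 := Algebra.discr_eq_det_embeddingsMatrixReindex_pow_two K Ω b e
      rw [← hM, h0, zero_pow two_ne_zero] at h1
      exact Algebra.discr_not_zero_of_basis K b
        ((map_eq_zero_iff _ (algebraMap K Ω).injective).1 h1)
    have hex : ∀ j, e j x ≠ 0 := fun j => by
      rw [map_ne_zero]
      exact hxne
    -- the roots
    have hroot : ∀ j, ∃ y : Ω, y ^ n = e j zL / e j x := fun j =>
      IsAlgClosed.exists_pow_nat_eq _ hn0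
    choose y' hy' using hroot
    have hprod : (∏ j, y' j) ^ n = 1 := by
      rw [← Finset.prod_pow]
      simp only [hy']
      rw [Finset.prod_div_distrib]
      have h1 : ∀ u : L, ∏ j, e j u = algebraMap K Ω (Algebra.norm K u) := by
        intro u
        rw [Algebra.norm_eq_prod_embeddings K Ω]
        exact Equiv.prod_comp e fun σ : L →ₐ[K] Ω => σ u
      rw [h1, h1, hz, hx0]
      exact div_self ((map_ne_zero _).2 hc)
    have hζ : (∏ j, y' j) ≠ 0 := by
      intro h0
      rw [h0, zero_pow hn0.ne'] at hprod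
      exact zero_ne_one hprod
    let j0 : Fin n := ⟨0, hn0⟩
    set y : Fin n → Ω := fun j => if j = j0 then y' j / ∏ j, y' j else y' j with hy
    have hyn : ∀ j, y j ^ n = e j zL / e j x := by
      intro j
      rw [hy]
      by_cases hj : j = j0
      · simp only [hj, if_true]
        rw [div_pow, hprod, div_one, hy']
      · simp only [hj, if_false]
        exact hy' j
    have hyprod : ∏ j, y j = 1 := by
      have h1 : ∏ j, y j = (∏ j, y' j) * ∏ j, (if j = j0 then (∏ j, y' j)⁻¹ else 1) := by
        rw [← Finset.prod_mul_distrib]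
        refine Finset.prod_congr rfl fun j _ => ?_
        rw [hy]
        by_cases hj : j = j0
        · simp only [hj, if_true]
          rw [div_eq_mul_inv]
        · simp only [hj, if_false, mul_one]
      rw [h1, Finset.prod_ite_eq' Finset.univ j0, if_pos (Finset.mem_univ _), mul_inv_cancel₀ hζ]
    -- the parameters
    set t : Fin n → Ω := Matrix.vecMul y M⁻¹ with ht
    have htM : Matrix.vecMul t M = y := by
      rw [ht, Matrix.vecMul_vecMul, Matrix.nonsing_inv_mul M hdet, Matrix.vecMul_one]
    have htj : ∀ j, ∑ i, e j (b i) * t i = y j := by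
      intro j
      rw [← congrFun htM j, Matrix.vecMul, dotProduct]
      exact Finset.sum_congr rfl fun i _ => by rw [hMe, mul_comm]
    have hgt : aeval t (NP b) = 1 := by
      rw [NP_emb b Ω t, ← Equiv.prod_comp e fun σ : L →ₐ[K] Ω => ∑ i, σ (b i) * t i, ← hyprod]
      exact Finset.prod_congr rfl fun j _ => htj j
    have hPt : ∀ j, ∑ k, aeval t (P k) * e j (b k) = e j zL := by
      intro j
      have h1 := congrArg (eval₂ (e j : L →+* Ω) t) hP
      rw [eval₂_mul, eval₂_pow, eval₂_C, eval₂_sum, eval₂_sum] at h1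
      simp only [eval₂_mul, eval₂_C, eval₂_X, eval₂_map, RingHom.coe_coe] at h1
      rw [htj j, hyn j] at h1
      have h2 : ((e j : L →+* Ω).comp (algebraMap K L)) = algebraMap K Ω := by
        ext a
        simp
      rw [h2] at h1
      rw [mul_div_cancel₀ _ (hex j)] at h1
      rw [h1]
      refine Finset.sum_congr rfl fun k _ => ?_
      rw [mul_comm]
      rfl
    have hPz : ∀ k, aeval t (P k) = algebraMap K Ω (z k) := by
      have h1 : Matrix.vecMul (fun k => aeval t (P k) - algebraMap K Ω (z k)) M = 0 := by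
        funext j
        rw [Matrix.vecMul, dotProduct, Pi.zero_apply]
        have h2 : e j zL = ∑ k, algebraMap K Ω (z k) * e j (b k) := by
          rw [hzL, map_sum]
          refine Finset.sum_congr rfl fun k _ => ?_
          rw [map_smul, Algebra.smul_def]
        have h3 := hPt j
        rw [h2] at h3
        simp only [hMe, sub_mul, Finset.sum_sub_distrib]
        rw [h3, sub_self]
      have h2 : (fun k => aeval t (P k) - algebraMap K Ω (z k)) = 0 := by
        have h3 : Matrix.vecMul (Matrix.vecMul
            (fun k => aeval t (P k) - algebraMap K Ω (z k)) M) M⁻¹ = 0 := by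
          rw [h1, Matrix.zero_vecMul]
        rw [Matrix.vecMul_vecMul, Matrix.mul_nonsing_inv M hdet, Matrix.vecMul_one] at h3
        exact h3
      intro k
      exact sub_eq_zero.1 (congrFun h2 k)
    have h1 := vanish_ext hh Ω t (by rw [hgt]; exact one_ne_zero)
    rw [hgt] at h1
    simp only [div_one, hPz] at h1
    have h2 : aeval (fun k => algebraMap K Ω (z k)) h = algebraMap K Ω (eval z h) := by
      rw [aeval_def]
      exact (eval₂_comp _ _ _).symm
    rw [h2] at h1
    exact (map_eq_zero_iff _ (algebraMap K Ω).injective).1 h1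

end norm

end Pool.Agent.R565.PU
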